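import Pool.Agent.U151.LB.Sub
import Pool.Agent.Results.MP_fe58d8_pr.DoublePoints

/-!
# The sides of all subpaths of the scaling limits of the exploration path

Critical bond percolation on `δ ℤ²` in a rectangle `D = (-A, B) × (0, H)`, with the counterclockwise
boundary arc from `a = t + i H` to `b = 0` wired and the other one dual-wired.  The exploration path
is parametrised by its number of steps: `Rect.curve` is the
piecewise linear curve on `[0, 1]` run at constant speed, and `Rect.time` is the number of steps times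
`δ ^ (7/4)`; `Rect.law` is the law of (curve, time).  Weak limits exist along a subsequence of every
sequence of meshes.

For every weak limit, almost surely, simultaneously for ALL `0 ≤ s < t ≤ 1`: the union of the
boundaries of all the components of the complement of the subpath `f([s, t])` has Hausdorff dimension
exactly `4/3`; the points of `f([s, t])`, in `D`, which lie on the boundary of a component of the
complement of `f([s', t'])` for all `s' ≤ s` and all `t' ≥ t` (in particular, for the whole path) have
dimension exactly `4/3` as well; the corresponding sets of times have dimension exactly `16/21`.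

Definitions: `Pool.Agent.H984R4.NP.Model` (`Rect`, `pos`, `clamp`, `pl`, `X`, `Rect.D`, `Rect.dm`,
`Rect.curve`, `Rect.time`, `Rect.law`), `Pool.Agent.H984R4.NP.Defs` (`Dm`, `Dm.edges`, `Dm.wir`,
`Dm.cfg`, `Dm.walk`, `Dm.len`) and `Pool.Agent.H984R3.Per.Defs` (states, `ae`, `mv`, `rt`, `nxt`,
`orb`).

The starting files have this for the whole path and near its end point
(`MP_fe58d8_pr.FrontierDimension`) and, in the half-plane, for the past of a time, near the origin
(`MP_6c8efb_pr.SidesExact`): there the good vertices are found in independent annuli around a fixed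
point through which the path passes.  Here the path has to be followed: every strand of the interface
in the bulk, of macroscopic size, is explored step by step, and at the tips of longer and longer
strands trials are made, in which two hooks of open and closed edges guide the interface to a fresh
square with about `m ^ (4/3)` vertices with two arms and a thick path; a side potential shows that
these vertices are visited by this very strand.  The probability that all of `K` trials fail is
exponentially small in `K`, the number of strands only polynomial.  The passage to the limit uses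
closed sets of curves, for all pairs of times at once.  Upper bound: a point on the boundary of a
component of the complement of `f([s, t])` is accessible from the complement of the whole path,
or a double point, or one of the end points `f(s)`, `f(t)`.
-/

set_option autoImplicit false

namespace Pool.Agent.Results.MP_fe58d8_pr.ArcFrontiers

open H984N MeasureTheory Filter Topology Pool.Agent.Results.MP_fe58d8_pr
open scoped ENNReal NNReal

/-- The union of the boundaries of all the components of the complement of `K`. -/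
def sides (K : Set ℂ) : Set ℂ := ⋃ x : ℂ, frontier (connectedComponentIn Kᶜ x)

/-- The points of the subpath `f([s, t])` which belong to `sides (f([s', t']))` for all `s' ≤ s` and
all `t' ≥ t`. -/
def lasting (f : C(unitInterval, ℂ)) (s t : unitInterval) : Set ℂ :=
  {z | z ∈ f '' Set.Icc s t ∧
    ∀ s' t' : unitInterval, s' ≤ s → t ≤ t' → z ∈ sides (f '' Set.Icc s' t')}

/-- The times in `[s, t]` at which `f` is in `S`. -/
def times (f : C(unitInterval, ℂ)) (s t : unitInterval) (S : Set ℂ) : Set unitInterval :=
  {r | r ∈ Set.Icc s t ∧ f r ∈ S}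

theorem lasting_eq (f : C(unitInterval, ℂ)) (s t : unitInterval) :
    lasting f s t = sides (Set.range f) ∩ f '' Set.Icc s t := by
  ext z
  constructor
  · rintro ⟨h1, h2⟩
    refine ⟨?_, h1⟩
    have h3 := h2 0 1 s.2.1 t.2.2
    have e : f '' Set.Icc (0 : unitInterval) 1 = Set.range f := by
      rw [← Set.image_univ]
      congr 1
      exact Set.eq_univ_of_forall fun x => ⟨x.2.1, x.2.2⟩
    rwa [e] at h3
  · rintro ⟨h1, h2⟩
    refine ⟨h2, fun s' t' hs ht => ?_⟩
    refine Pool.Agent.U151.LB.Fro_anti (isCompact_Icc.image f.continuous).isClosed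
      (Set.image_subset_range _ _) ?_ h1
    exact Set.image_mono (Set.Icc_subset_Icc hs ht) h2

theorem times_dim {f : C(unitInterval, ℂ)} (hu : ∀ E : Set unitInterval,
    dimH (f '' E) = 7 / 4 * dimH E) {s t : unitInterval} {S : Set ℂ}
    (hS : S ⊆ f '' Set.Icc s t) (h : dimH S = 4 / 3) :
    dimH (times f s t S) = 16 / 21 := by
  have e : f '' (times f s t S) = S := by
    ext z
    constructor
    · rintro ⟨r, hr, rfl⟩
      exact hr.2
    · intro hz
      obtain ⟨r, hr, rfl⟩ := hS hz
      exact ⟨r, ⟨hr, hz⟩, rfl⟩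
  have h4 := hu (times f s t S)
  rw [e, h] at h4
  have a1 : (4 / 7 : ℝ≥0∞) = ENNReal.ofReal (4 / 7) := by
    rw [ENNReal.ofReal_div_of_pos (by norm_num)]; norm_num
  have a2 : (7 / 4 : ℝ≥0∞) = ENNReal.ofReal (7 / 4) := by
    rw [ENNReal.ofReal_div_of_pos (by norm_num)]; norm_num
  have a3 : (4 / 3 : ℝ≥0∞) = ENNReal.ofReal (4 / 3) := by
    rw [ENNReal.ofReal_div_of_pos (by norm_num)]; norm_num
  have a4 : (16 / 21 : ℝ≥0∞) = ENNReal.ofReal (16 / 21) := by
    rw [ENNReal.ofReal_div_of_pos (by norm_num)]; norm_num
  have e2 : (4 / 7 : ℝ≥0∞) * (7 / 4) = 1 := by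
    rw [a1, a2, ← ENNReal.ofReal_mul (by norm_num)]
    norm_num
  calc dimH (times f s t S) = 4 / 7 * (7 / 4 * dimH (times f s t S)) := by
        rw [← mul_assoc, e2, one_mul]
    _ = 4 / 7 * (4 / 3) := by rw [← h4]
    _ = 16 / 21 := by
        rw [a1, a3, a4, ← ENNReal.ofReal_mul (by norm_num)]
        norm_num

theorem dim_Icc {s t : unitInterval} (hst : s < t) : dimH (Set.Icc s t) = 1 := by
  have hst' : (s : ℝ) < t := hst
  have h1 : (fun x : unitInterval => (x : ℝ)) '' Set.Icc s t = Set.Icc (s : ℝ) t := by
    ext y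
    constructor
    · rintro ⟨x, hx, rfl⟩
      exact hx
    · intro hy
      exact ⟨⟨y, s.2.1.trans hy.1, hy.2.trans t.2.2⟩, hy, rfl⟩
  have h2 : Isometry (fun x : unitInterval => (x : ℝ)) := isometry_subtype_coe
  rw [← h2.dimH_image, h1]
  have h3 : (interior (Set.Icc (s : ℝ) t)).Nonempty := by
    rw [interior_Icc]
    exact Set.nonempty_Ioo.2 hst'
  rw [Real.dimH_of_nonempty_interior h3, Module.finrank_self, Nat.cast_one]

theorem one_lt : (1 : ℝ≥0∞) < 7 / 4 := by
  rw [ENNReal.lt_div_iff_mul_lt (Or.inl (by norm_num)) (Or.inl (by norm_num))]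
  norm_num

theorem one_lt' : (1 : ℝ≥0∞) < 4 / 3 := by
  rw [ENNReal.lt_div_iff_mul_lt (Or.inl (by norm_num)) (Or.inl (by norm_num))]
  norm_num

theorem le34 : (3 / 4 : ℝ≥0∞) ≤ 4 / 3 := by
  have h1 : (3 / 4 : ℝ≥0∞) ≤ 1 := by
    rw [ENNReal.div_le_iff_le_mul (Or.inl (by norm_num)) (Or.inl (by norm_num))]
    norm_num
  exact h1.trans one_lt'.le

/-- **The sides of all subpaths.**
(1) Every sequence of meshes has a subsequence along which the law of the interface with its natural
time converges.  (2) For every limit, almost surely, for all `s < t` in `[0, 1]`: the sides of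
`f([s, t])` have Hausdorff dimension exactly `4/3` and `f` is there, between `s` and `t`, on a set of
times of dimension exactly `16/21`; the same is true for the points in `D` which are on the sides of
all the subpaths `f([s', t'])`, `s' ≤ s`, `t ≤ t'`. -/
theorem result (R : Rect) :
    (∀ δ : ℕ → ℝ, (∀ i, 0 < δ i) → Tendsto δ atTop (𝓝 0) →
      ∃ φ : ℕ → ℕ, StrictMono φ ∧ ∃ μ : ProbabilityMeasure X,
        Tendsto (fun i => R.law (δ (φ i))) atTop (𝓝 μ)) ∧
    (∀ δ : ℕ → ℝ, (∀ i, 0 < δ i) → Tendsto δ atTop (𝓝 0) → ∀ μ : ProbabilityMeasure X,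
      Tendsto (fun i => R.law (δ i)) atTop (𝓝 μ) →
      ∀ᵐ p ∂(μ : Measure X), ∀ s t : unitInterval, s < t →
        (dimH (sides (p.1 '' Set.Icc s t)) = 4 / 3 ∧
          dimH (times p.1 s t (sides (p.1 '' Set.Icc s t))) = 16 / 21) ∧
        (dimH (lasting p.1 s t ∩ R.D) = 4 / 3 ∧
          dimH (times p.1 s t (lasting p.1 s t ∩ R.D)) = 16 / 21)) := by
  obtain ⟨h1, h2⟩ := UniformDimension.result R
  refine ⟨h1, fun δ hδ hlim μ hμ => ?_⟩
  filter_upwards [h2 δ hδ hlim μ hμ, (NaturalCurve.result R).2.2.2 δ hδ hlim μ hμ,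
    (DoublePoints.result R).2 δ hδ hlim μ hμ, Pool.Agent.U151.LB.arcsX R hδ hlim hμ,
    Pool.Agent.Y989.FR.Up.acc_fixed Pool.Agent.W424.KI.u3 R hδ hlim hμ Set.univ] with
    p hu hq hdb harc hacc
  obtain ⟨-, -, -, hcl, -, -⟩ := hq
  intro s t hst
  obtain ⟨f, hf⟩ : ∃ f : C(unitInterval, ℂ), f = p.1 := ⟨_, rfl⟩
  rw [← hf] at hu hcl hdb harc hacc ⊢
  -- the part outside the domain
  have hout : ∀ A : Set ℂ, A ⊆ Set.range f → dimH (A \ R.D) ≤ 1 := by
    intro A hA
    refine (dimH_mono ?_).trans (Pool.Agent.Y989.FR.Up.bd_dim R)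
    rintro z ⟨hz, hzD⟩
    obtain ⟨x, rfl⟩ := hA hz
    exact ⟨hcl x, hzD⟩
  have hns : ¬ (f '' Set.Icc s t).Subsingleton := by
    intro hcon
    have h3 := hu (Set.Icc s t)
    rw [dimH_subsingleton hcon, dim_Icc hst, mul_one] at h3
    have h4 : (0 : ℝ≥0∞) < 7 / 4 := lt_trans one_pos one_lt
    exact absurd h3 h4.ne
  have hmeet : (f '' Set.Icc s t ∩ R.D).Nonempty := by
    by_contra hcon
    rw [Set.not_nonempty_iff_eq_empty] at hcon
    have h3 : f '' Set.Icc s t \ R.D = f '' Set.Icc s t :=
      sdiff_eq_left.2 (Set.disjoint_iff_inter_eq_empty.2 hcon)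
    have h4 := hout _ (Set.image_subset_range f (Set.Icc s t))
    rw [h3, hu, dim_Icc hst, mul_one] at h4
    exact absurd h4 (not_le.2 one_lt)
  have hlow : (4 / 3 : ℝ≥0∞) ≤ dimH (lasting f s t) := by
    rw [lasting_eq]
    exact harc s t hmeet hns
  have hIcl : IsClosed (f '' Set.Icc s t) := (isCompact_Icc.image f.continuous).isClosed
  have hsidesub : sides (f '' Set.Icc s t) ⊆ f '' Set.Icc s t := by
    intro w hw
    have h3 : sides (f '' Set.Icc s t) ⊆ sides (Set.range (Pool.Agent.U151.LB.subp f s t)) := by
      rw [Pool.Agent.U151.LB.range_subp f hst]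
    have hne : ∃ a b, Pool.Agent.U151.LB.subp f s t a ≠ Pool.Agent.U151.LB.subp f s t b := by
      rw [Set.not_subsingleton_iff] at hns
      obtain ⟨x, hx, y, hy, hxy⟩ := hns
      rw [← Pool.Agent.U151.LB.range_subp f hst] at hx hy
      obtain ⟨a, rfl⟩ := hx
      obtain ⟨b, rfl⟩ := hy
      exact ⟨a, b, hxy⟩
    obtain ⟨i, hi⟩ := Set.mem_iUnion.1 (Pool.Agent.TH990.FU.frontiers_acc hne (h3 hw))
    rw [← Pool.Agent.U151.LB.range_subp f hst]
    exact hi.1
  have hlastsub : lasting f s t ⊆ sides (f '' Set.Icc s t) := fun z hz =>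
    hz.2 s t le_rfl le_rfl
  -- the upper bound
  have hup : dimH (sides (f '' Set.Icc s t)) ≤ 4 / 3 := by
    refine (dimH_mono (Pool.Agent.U151.LB.sides_sub hst hns)).trans ?_
    rw [dimH_union, dimH_union]
    refine max_le ?_ (max_le ?_ ?_)
    · obtain ⟨A, hA⟩ : ∃ A : Set ℂ, A = ⋃ i : ℕ, Pool.Agent.TH990.FU.Acc (1 / ((i:ℝ) + 1)) f :=
        ⟨_, rfl⟩
      rw [← hA] at hacc ⊢
      have hAr : A ⊆ Set.range f := by
        rw [hA]
        intro z hz
        obtain ⟨i, hi⟩ := Set.mem_iUnion.1 hz
        exact hi.1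
      have h3 := hacc.1
      rw [Set.inter_univ, Pool.Agent.Y989.FR.Up.univ_dim] at h3
      rw [← Set.inter_union_sdiff A R.D, dimH_union]
      exact max_le h3 ((hout A hAr).trans one_lt'.le)
    · have h3 := hdb.1
      exact (le_of_eq h3).trans le34
    · have h3 : ({f s, f t} : Set ℂ).Countable := (Set.toFinite _).countable
      rw [h3.dimH_zero]
      exact bot_le
  have hside : dimH (sides (f '' Set.Icc s t)) = 4 / 3 :=
    le_antisymm hup (hlow.trans (dimH_mono hlastsub))
  have hlast : dimH (lasting f s t ∩ R.D) = 4 / 3 := by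
    refine le_antisymm ((dimH_mono (Set.inter_subset_left.trans hlastsub)).trans hup) ?_
    rw [← Set.inter_union_sdiff (lasting f s t) R.D, dimH_union] at hlow
    rcases le_max_iff.1 hlow with h | h
    · exact h
    · exfalso
      have h3 := h.trans (hout _ ((hlastsub.trans hsidesub).trans (Set.image_subset_range _ _)))
      exact absurd h3 (not_le.2 one_lt')
  exact ⟨⟨hside, times_dim hu hsidesub hside⟩, hlast,
    times_dim hu ((Set.inter_subset_left.trans hlastsub).trans hsidesub) hlast⟩

end Pool.Agent.Results.MP_fe58d8_pr.ArcFrontiers
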