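import Pool.Agent.U151.FS.Lim
import Pool.Agent.U151.BX.Cmp
import Pool.Agent.U151.BX.Cap2
import Pool.Agent.Results.MP_fe58d8_pr.UniformDimension

/-!
# Sets visited by independent exploration paths: hitting probabilities and the exact dimension

Critical bond percolation on `δ ℤ²` in a rectangle `D = (-A, B) × (0, H)`, with the counterclockwise
boundary arc from `a = t + i H` to `b = 0` wired and the other one dual-wired. The exploration path
is parametrised by its number of steps: `Rect.curve` is the piecewise linear curve on `[0, 1]` run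
at constant speed, and `Rect.time` is the number of steps times `δ ^ (7/4)`; `Rect.law` is the law
of (curve, time). Weak limits exist along a subsequence of every sequence of meshes.

Let `k ≥ 1` and let `p 0, …, p (k-1)` be independent with the law `μ` (`Measure.pi`), where `μ` is a
weak limit; `common p` is the set of the points which are on all `k` curves.

Hitting probabilities. For every compact `D' ⊆ D` there are `c > 0` and `C < ∞` such that for every
weak limit `μ` and for every set `S ⊆ D'`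

* the (outer) probability that `common p` does not meet `S` is at most
  `1 - c ν(ℂ)² / ∬ |x - y|^(-k/4) dν dν` for every finite measure `ν` with `ν(Sᶜ) = 0` (so the
  probability that `S` is hit is at least `c` times the `k/4`-capacity of `S`);
* the (outer) probability that `common p` meets `S` is at most `C ∑ diam(t n)^(k/4)` for every
  countable cover of `S` by sets `t n` (so it is at most `C` times the `k/4`-dimensional Hausdorff
  content of `S`).

Dimension. Let `S ⊆ D` be any analytic set (Mathlib: the empty set or a continuous image of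
`ℕ → ℕ`), for instance any Borel set. For every weak limit `μ`

* the essential supremum of `dim (common p ∩ S)` is `dim S - k/4` (truncated at `0`);
* for every `j` the essential supremum of the dimension of the set of the times at which the curve
  of `p j` is in `common p ∩ S` is `(4/7) (dim S - k/4)`.

Moreover, for every `x < dim S - k/4` there is a `q > 0`, which does not depend on the weak limit,
such that `dim (common p ∩ S) > x` with probability at least `q`.

Definitions: `Pool.Agent.H984R4.NP.Model` (`Rect`, `pos`, `clamp`, `pl`, `X`, `Rect.D`, `Rect.dm`,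
`Rect.curve`, `Rect.time`, `Rect.law`), `Pool.Agent.H984R4.NP.Defs` (`Dm`, `Dm.edges`, `Dm.wir`,
`Dm.cfg`, `Dm.walk`, `Dm.len`) and `Pool.Agent.H984R3.Per.Defs` (states, `ae`, `mv`, `rt`, `nxt`,
`orb`).
-/

set_option autoImplicit false

namespace Pool.Agent.Results.MP_fe58d8_pr.BorelSets

open H984N MeasureTheory Filter Topology
open scoped ENNReal NNReal

/-- The points which are on all curves. -/
def common {k : ℕ} (p : Fin k → X) : Set ℂ := ⋂ i, Set.range (p i).1

/-- The times at which the curve of `q` is in `T`. -/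
def times (q : X) (T : Set ℂ) : Set unitInterval := {s | q.1 s ∈ T}

theorem times_dim {q : X} (hq : ∀ E : Set unitInterval, dimH (q.1 '' E) = 7 / 4 * dimH E)
    {T : Set ℂ} (hT : T ⊆ Set.range q.1) : dimH (times q T) = 4 / 7 * dimH T := by
  have e : q.1 '' (times q T) = T := by
    unfold times
    rw [show {s | q.1 s ∈ T} = q.1 ⁻¹' T from rfl, Set.image_preimage_eq_range_inter]
    exact Set.inter_eq_right.mpr hT
  have h := hq (times q T)
  rw [e] at h
  have e2 : (4 / 7 : ℝ≥0∞) * (7 / 4) = 1 := by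
    have a1 : (4 / 7 : ℝ≥0∞) = ENNReal.ofReal (4 / 7) := by
      rw [ENNReal.ofReal_div_of_pos (by norm_num)]; norm_num
    have a2 : (7 / 4 : ℝ≥0∞) = ENNReal.ofReal (7 / 4) := by
      rw [ENNReal.ofReal_div_of_pos (by norm_num)]; norm_num
    rw [a1, a2, ← ENNReal.ofReal_mul (by norm_num)]
    norm_num
  rw [h, ← mul_assoc, e2, one_mul]

theorem hmap (μ : ProbabilityMeasure X) (k : ℕ) : Measure.pi (fun _ : Fin k =>
    ((μ.map H443B.rgX_cont.measurable.aemeasurable :
      ProbabilityMeasure (TopologicalSpace.NonemptyCompacts ℂ)) :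
        Measure (TopologicalSpace.NonemptyCompacts ℂ))) =
    (Measure.pi (fun _ : Fin k => (μ : Measure X))).map (fun p i => H443B.rgX (p i)) := by
  rw [Measure.pi_map_pi (μ := fun _ : Fin k => (μ : Measure X))
    (f := fun _ => H443B.rgX) (fun _ => H443B.rgX_cont.measurable.aemeasurable)]
  rfl

theorem hmm (k : ℕ) : Measurable (fun (p : Fin k → X) (i : Fin k) => H443B.rgX (p i)) :=
  measurable_pi_lambda _ fun i => H443B.rgX_cont.measurable.comp (measurable_pi_apply i)

/-- The uniform lower bound. -/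
theorem lowerS (R : Rect) (k : ℕ) {S : Set ℂ} (hS : AnalyticSet S) (hSD : S ⊆ R.D)
    {x : ℝ≥0∞} (hx : x < dimH S - (k : ℝ≥0∞) / 4) :
    ∃ q : ℝ≥0∞, 0 < q ∧ ∀ δ : ℕ → ℝ, (∀ i, 0 < δ i) → Tendsto δ atTop (𝓝 0) →
      ∀ μ : ProbabilityMeasure X, Tendsto (fun i => R.law (δ i)) atTop (𝓝 μ) →
      (Measure.pi fun _ : Fin k => (μ : Measure X)) {p | dimH (common p ∩ S) ≤ x} ≤ 1 - q := by
  have ek : ((k : ℝ≥0∞) / 4) = ENNReal.ofReal ((k : ℝ) / 4) := by
    rw [ENNReal.ofReal_div_of_pos (by norm_num), ENNReal.ofReal_natCast,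
      show ENNReal.ofReal 4 = 4 by simp]
  have hk0 : (0:ℝ) ≤ (k : ℝ) / 4 := by positivity
  rw [lt_tsub_iff_right] at hx
  obtain ⟨C, hCS, hC, hn⟩ := Pool.Agent.U151.BX.exists_compact_dim hS hx
  obtain ⟨y, hy1, hy2⟩ := ENNReal.lt_iff_exists_nnreal_btwn.mp hn
  rw [ek] at hy1
  have hy4 : (k : ℝ) / 4 < y := by
    have h1 : ENNReal.ofReal ((k : ℝ) / 4) < y := lt_of_le_of_lt le_add_self hy1
    rwa [ENNReal.ofReal_lt_coe_iff hk0] at h1
  have hyx : x < ENNReal.ofReal ((y : ℝ) - (k : ℝ) / 4) := by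
    rw [ENNReal.ofReal_sub _ hk0, ENNReal.ofReal_coe_nnreal]
    exact lt_tsub_iff_right.mpr hy1
  obtain ⟨q, hq, hmain⟩ := Pool.Agent.U151.FS.posA (H443B.toE R) (H443B.isOpen_D R) k hC
    (hCS.trans hSD) (t := (y : ℝ) - (k : ℝ) / 4) (by linarith) (by
      rw [sub_add_cancel, ENNReal.ofReal_coe_nnreal]
      exact hy2)
  refine ⟨ENNReal.ofReal q, ENNReal.ofReal_pos.mpr hq, fun δ hδ hlim μ hμ => ?_⟩
  have h1 := hmain δ hδ hlim _ (H443B.limit_trace R hδ hlim hμ)
  rw [hmap, ENNReal.ofReal_sub _ hq.le, ENNReal.ofReal_one] at h1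
  refine le_trans (le_trans (measure_mono ?_) (Measure.le_map_apply (hmm k).aemeasurable _)) h1
  intro p hp hle
  have e : (⋂ i, ((H443B.rgX (p i) : TopologicalSpace.NonemptyCompacts ℂ) : Set ℂ)) =
      common p := rfl
  rw [e] at hle
  have h2 : dimH (C ∩ common p) ≤ dimH (common p ∩ S) := by
    apply dimH_mono
    rw [Set.inter_comm]
    exact Set.inter_subset_inter_right _ hCS
  exact absurd (hyx.trans_le (hle.trans (h2.trans hp))) (lt_irrefl _)

/-- Hitting probabilities: the lower bound by the capacity. -/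
theorem lowerC (R : Rect) (k : ℕ) {D' : Set ℂ} (hD' : IsCompact D') (hDD : D' ⊆ R.D) :
    ∃ c : ℝ≥0∞, 0 < c ∧ ∀ δ : ℕ → ℝ, (∀ i, 0 < δ i) → Tendsto δ atTop (𝓝 0) →
      ∀ μ : ProbabilityMeasure X, Tendsto (fun i => R.law (δ i)) atTop (𝓝 μ) → ∀ S ⊆ D',
      ∀ ν : Measure ℂ, IsFiniteMeasure ν → ν Sᶜ = 0 →
        (Measure.pi fun _ : Fin k => (μ : Measure X)) {p | common p ∩ S = ∅} ≤
          1 - c * (ν Set.univ ^ 2 / ∫⁻ x, ∫⁻ y, edist x y ^ (-((k : ℝ) / 4)) ∂ν ∂ν) := by
  obtain ⟨c, hc, hmain⟩ := Pool.Agent.U151.BX.posC1 (H443B.toE R) (H443B.isOpen_D R) k hD' hDD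
  refine ⟨ENNReal.ofReal c, ENNReal.ofReal_pos.mpr hc, ?_⟩
  intro δ hδ hlim μ hμ S hS ν hfin hνS
  have h1 := hmain S hS ν hfin hνS δ hδ hlim _ (H443B.limit_trace R hδ hlim hμ)
  rw [hmap] at h1
  have h2 : (Measure.pi fun _ : Fin k => (μ : Measure X)) {p | common p ∩ S = ∅} ≤
      ENNReal.ofReal (1 - c * (ν.real Set.univ ^ 2 /
        (Pool.Agent.U151.BX.en ((k : ℝ) / 4) ν).toReal)) := by
    refine le_trans (le_trans (measure_mono ?_) (Measure.le_map_apply (hmm k).aemeasurable _)) h1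
    intro p hp hne
    have hp' : common p ∩ S = ∅ := hp
    rw [Set.inter_comm] at hne
    have e : (⋂ i, ((H443B.rgX (p i) : TopologicalSpace.NonemptyCompacts ℂ) : Set ℂ)) ∩ S =
        common p ∩ S := rfl
    rw [e, hp'] at hne
    exact Set.not_nonempty_empty hne
  change _ ≤ 1 - ENNReal.ofReal c * (ν Set.univ ^ 2 / Pool.Agent.U151.BX.en ((k : ℝ) / 4) ν)
  by_cases hν : ν = 0
  · rw [hν]
    simp only [Measure.coe_zero, Pi.zero_apply, ne_eq, OfNat.ofNat_ne_zero, not_false_eq_true,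
      zero_pow, ENNReal.zero_div, mul_zero, tsub_zero]
    exact prob_le_one
  by_cases hE : Pool.Agent.U151.BX.en ((k : ℝ) / 4) ν = ∞
  · rw [hE, ENNReal.div_top, mul_zero, tsub_zero]
    exact prob_le_one
  have hEpos : 0 < (Pool.Agent.U151.BX.en ((k : ℝ) / 4) ν).toReal := by
    apply Pool.Agent.U151.BX.energy_low (A := D') (r := Metric.diam D' + 1)
      (show (0 : ℝ) ≤ (k : ℝ) / 4 by positivity)
      (by have := Metric.diam_nonneg (s := D'); linarith) hD'.isClosed.measurableSet hν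
      (measure_mono_null (Set.compl_subset_compl.mpr hS) hνS) hE
    intro x hx y hy
    have := Metric.dist_le_diam_of_mem hD'.isBounded hx hy
    linarith
  refine h2.trans (le_of_eq ?_)
  rw [ENNReal.ofReal_sub _ (by positivity), ENNReal.ofReal_one, ENNReal.ofReal_mul hc.le,
    ENNReal.ofReal_div_of_pos hEpos, ENNReal.ofReal_pow measureReal_nonneg,
    ENNReal.ofReal_toReal hE, ofReal_measureReal]

/-- Hitting probabilities: the upper bound by the Hausdorff content. -/
theorem upperC (R : Rect) {k : ℕ} (hk : 1 ≤ k) {D' : Set ℂ} (hD' : IsCompact D')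
    (hDD : D' ⊆ R.D) :
    ∃ C : ℝ≥0∞, C < ∞ ∧ ∀ δ : ℕ → ℝ, (∀ i, 0 < δ i) → Tendsto δ atTop (𝓝 0) →
      ∀ μ : ProbabilityMeasure X, Tendsto (fun i => R.law (δ i)) atTop (𝓝 μ) → ∀ S ⊆ D',
      ∀ t : ℕ → Set ℂ, S ⊆ ⋃ n, t n →
        (Measure.pi fun _ : Fin k => (μ : Measure X)) {p | (common p ∩ S).Nonempty} ≤
          C * ∑' n, Metric.ediam (t n) ^ ((k : ℝ) / 4) := by
  obtain ⟨C, hC, hmain⟩ := Pool.Agent.U151.BX.hitC (H443B.toE R) (H443B.isOpen_D R) hk hD' hDD
  refine ⟨C, lt_top_iff_ne_top.mpr hC, ?_⟩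
  intro δ hδ hlim μ hμ S hS t ht
  have h1 := hmain δ hδ hlim _ (H443B.limit_trace R hδ hlim hμ) S hS t ht
  rw [hmap] at h1
  refine le_trans (le_trans (measure_mono ?_) (Measure.le_map_apply (hmm k).aemeasurable _)) h1
  intro p hp
  exact hp

/-- Sets of measure zero are not visited. -/
theorem h4up (R : Rect) {k : ℕ} (hk : 1 ≤ k) {S : Set ℂ} (hSD : S ⊆ R.D) {δ : ℕ → ℝ}
    (hδ : ∀ i, 0 < δ i) (hlim : Tendsto δ atTop (𝓝 0)) {μ : ProbabilityMeasure X}
    (hμ : Tendsto (fun i => R.law (δ i)) atTop (𝓝 μ)) :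
    ∀ᵐ p ∂(Measure.pi fun _ : Fin k => (μ : Measure X)),
      dimH (common p ∩ S) ≤ dimH S - (k : ℝ≥0∞) / 4 := by
  have hν := H443B.limit_trace R hδ hlim hμ
  have h3 := Pool.Agent.U151.IP.upK (k := k) (H443B.toE R) hδ hlim hν (H443B.isOpen_D R) hk hSD
  rw [hmap] at h3
  have h4 := ae_of_ae_map (hmm k).aemeasurable h3
  exact h4.mono fun p hp => hp.1

theorem result (R : Rect) :
    (∀ δ : ℕ → ℝ, (∀ i, 0 < δ i) → Tendsto δ atTop (𝓝 0) →
      ∃ φ : ℕ → ℕ, StrictMono φ ∧ ∃ μ : ProbabilityMeasure X,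
        Tendsto (fun i => R.law (δ (φ i))) atTop (𝓝 μ)) ∧
    (∀ (k : ℕ) (D' : Set ℂ), 1 ≤ k → IsCompact D' → D' ⊆ R.D →
      ∃ c C : ℝ≥0∞, 0 < c ∧ C < ∞ ∧
        ∀ δ : ℕ → ℝ, (∀ i, 0 < δ i) → Tendsto δ atTop (𝓝 0) → ∀ μ : ProbabilityMeasure X,
          Tendsto (fun i => R.law (δ i)) atTop (𝓝 μ) → ∀ S ⊆ D',
            (∀ ν : Measure ℂ, IsFiniteMeasure ν → ν Sᶜ = 0 →
              (Measure.pi fun _ : Fin k => (μ : Measure X)) {p | common p ∩ S = ∅} ≤
                1 - c * (ν Set.univ ^ 2 /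
                  ∫⁻ x, ∫⁻ y, edist x y ^ (-((k : ℝ) / 4)) ∂ν ∂ν)) ∧
            (∀ t : ℕ → Set ℂ, S ⊆ ⋃ n, t n →
              (Measure.pi fun _ : Fin k => (μ : Measure X)) {p | (common p ∩ S).Nonempty} ≤
                C * ∑' n, Metric.ediam (t n) ^ ((k : ℝ) / 4))) ∧
    (∀ (k : ℕ) (S : Set ℂ), 1 ≤ k → AnalyticSet S → S ⊆ R.D →
      (∀ δ : ℕ → ℝ, (∀ i, 0 < δ i) → Tendsto δ atTop (𝓝 0) → ∀ μ : ProbabilityMeasure X,
        Tendsto (fun i => R.law (δ i)) atTop (𝓝 μ) →
        essSup (fun p => dimH (common p ∩ S)) (Measure.pi fun _ : Fin k => (μ : Measure X)) =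
          dimH S - (k : ℝ≥0∞) / 4 ∧
        (∀ j : Fin k, essSup (fun p => dimH (times (p j) (common p ∩ S)))
          (Measure.pi fun _ : Fin k => (μ : Measure X)) = 4 / 7 * (dimH S - (k : ℝ≥0∞) / 4))) ∧
      (∀ x : ℝ≥0∞, x < dimH S - (k : ℝ≥0∞) / 4 → ∃ q : ℝ≥0∞, 0 < q ∧
        ∀ δ : ℕ → ℝ, (∀ i, 0 < δ i) → Tendsto δ atTop (𝓝 0) → ∀ μ : ProbabilityMeasure X,
          Tendsto (fun i => R.law (δ i)) atTop (𝓝 μ) →
          (Measure.pi fun _ : Fin k => (μ : Measure X)) {p | dimH (common p ∩ S) ≤ x} ≤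
            1 - q)) := by
  obtain ⟨h1, h2⟩ := UniformDimension.result R
  refine ⟨h1, ?_, fun k S hk hS hSD => ⟨fun δ hδ hlim μ hμ => ?_,
    fun x hx => lowerS R k hS hSD hx⟩⟩
  · intro k D' hk hD' hDD
    obtain ⟨c, hc, hl⟩ := lowerC R k hD' hDD
    obtain ⟨C, hC, hu⟩ := upperC R hk hD' hDD
    exact ⟨c, C, hc, hC, fun δ hδ hlim μ hμ S hS =>
      ⟨hl δ hδ hlim μ hμ S hS, hu δ hδ hlim μ hμ S hS⟩⟩
  have h4 := h4up R hk hSD hδ hlim hμ
  have hsup : essSup (fun p => dimH (common p ∩ S)) (Measure.pi fun _ : Fin k => (μ : Measure X)) =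
      dimH S - (k : ℝ≥0∞) / 4 := by
    apply le_antisymm
    · exact essSup_le_of_ae_le _ h4
    · by_contra hcon
      rw [not_le] at hcon
      obtain ⟨x, hx1, hx2⟩ := exists_between hcon
      obtain ⟨q, hq, hq2⟩ := lowerS R k hS hSD hx2
      have h5 := hq2 δ hδ hlim μ hμ
      have h6 : (Measure.pi fun _ : Fin k => (μ : Measure X)) {p | dimH (common p ∩ S) ≤ x} =
          1 := by
        have h8 : ∀ᵐ p ∂(Measure.pi fun _ : Fin k => (μ : Measure X)),
            dimH (common p ∩ S) ≤ x := (ae_lt_of_essSup_lt hx1).mono fun p hp => hp.le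
        rw [measure_congr (Filter.eventuallyEq_univ.mpr h8)]
        exact measure_univ
      rw [h6] at h5
      have h7 : (1 : ℝ≥0∞) - q < 1 := ENNReal.sub_lt_self ENNReal.one_ne_top one_ne_zero hq.ne'
      exact absurd (h5.trans_lt h7) (lt_irrefl _)
  refine ⟨hsup, fun j => ?_⟩
  have hunif : ∀ᵐ p ∂(Measure.pi fun _ : Fin k => (μ : Measure X)),
      ∀ E : Set unitInterval, dimH ((p j).1 '' E) = 7 / 4 * dimH E :=
    (Measure.tendsto_eval_ae_ae (μ := fun _ : Fin k => (μ : Measure X)) (i := j)).eventually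
      (h2 δ hδ hlim μ hμ)
  rw [← hsup, ← ENNReal.essSup_const_mul]
  apply essSup_congr_ae
  filter_upwards [hunif] with p hp
  exact times_dim hp fun z hz => Set.mem_iInter.mp hz.1 j

end Pool.Agent.Results.MP_fe58d8_pr.BorelSets
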