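import Pool.Agent.U167.SA.Mom2

/-!
# Local patterns at the contacts of the exploration path with the flat end of a strip

Critical bond percolation (`p = 1/2`) on `ℤ²` in a half-infinite strip of width `2 n + 1` of the
lattice rotated by 45 degrees, with a flat end.  The contacts are the vertices of the flat end which
are joined to the upper side of the strip by an open path of the strip: these are the vertices of
the end visited by the exploration path which separates the open clusters of the upper side from the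
dual clusters of the other sides.  Their number is of order `n ^ (2/3)`, with a random limit.
The theorem describes the local structure at the contacts: for every local pattern the number of its
occurrences is asymptotically a deterministic constant times the number of contacts, in `L²`,
locally uniformly on the end, with the limits of the law and of the first two moments.

Coordinates: the column of the vertex `(u,v)` is `u - v`, its height is `u + v`.
-/

set_option autoImplicit false

namespace Pool.Agent.Results.MP_fe58d8_pr.ContactPatterns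

open MeasureTheory Filter Topology

/-- Edges of `ℤ²`: `(u,v,true)` joins `(u,v)` and `(u+1,v)`; `(u,v,false)` joins `(u,v)` and
`(u,v+1)`. -/
abbrev Edge := ℤ × ℤ × Bool

/-- First end of an edge. -/
def fst (e : Edge) : ℤ × ℤ := (e.1, e.2.1)

/-- Second end of an edge. -/
def snd (e : Edge) : ℤ × ℤ := if e.2.2 then (e.1 + 1, e.2.1) else (e.1, e.2.1 + 1)

/-- Configurations (`true` = open). -/
abbrev Conf := Edge → Bool

/-- Critical bond percolation: independent fair coins on the edges. -/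
noncomputable def perc : Measure Conf :=
  Measure.infinitePi (fun _ : Edge => (PMF.uniformOfFintype Bool).toMeasure)

/-- The column of a vertex. -/
def col (x : ℤ × ℤ) : ℤ := x.1 - x.2

/-- The height of a vertex. -/
def height (x : ℤ × ℤ) : ℤ := x.1 + x.2

/-- `x` and `y` are the two ends of an open edge of `G`. -/
def OpenAdj (G : Set Edge) (ω : Conf) (x y : ℤ × ℤ) : Prop :=
  ∃ e ∈ G, ω e = true ∧ ((fst e = x ∧ snd e = y) ∨ (fst e = y ∧ snd e = x))

/-- A vertex of `A` is joined to a vertex of `T` by an open path of edges of `G`. -/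
def Joined (G : Set Edge) (A T : Set (ℤ × ℤ)) : Set Conf :=
  {ω | ∃ x ∈ A, ∃ y ∈ T, Relation.ReflTransGen (OpenAdj G ω) x y}

/-- The edges with both ends in the half-plane of the columns `≥ 0`. -/
def HalfPlane : Set Edge := {e | 0 ≤ col (fst e) ∧ 0 ≤ col (snd e)}

/-- The vertices of the column `n`. -/
def Column (n : ℤ) : Set (ℤ × ℤ) := {x | col x = n}

/-- The edges with both ends in the half-infinite strip `column ≥ 0`, `-1 ≤ height ≤ 2 n`. Its flat
end is the column `0`, with the vertices `(k,k)`, `0 ≤ k ≤ n`. -/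
def Strip (n : ℕ) : Set Edge :=
  {e | (0 ≤ col (fst e) ∧ -1 ≤ height (fst e) ∧ height (fst e) ≤ 2 * n) ∧
    (0 ≤ col (snd e) ∧ -1 ≤ height (snd e) ∧ height (snd e) ≤ 2 * n)}

/-- The upper side of the strip (height `2 n`). -/
def Upper (n : ℕ) : Set (ℤ × ℤ) := {x | height x = 2 * n}

/-- The configuration seen from the vertex `(k,k)`. -/
def seen (k : ℤ) (ω : Conf) : Conf := fun e => ω (e.1 + k, e.2.1 + k, e.2.2)

/-- The set `A` moved by `(k,k)`. -/
def move (k : ℤ) (A : Set (ℤ × ℤ)) : Set (ℤ × ℤ) := {x | (x.1 - k, x.2 - k) ∈ A}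

/-- The event depends on finitely many edges. -/
def IsLocal (E : Set Conf) : Prop :=
  ∃ T : Finset Edge, ∀ ω ω' : Conf, (∀ e ∈ T, ω e = ω' e) → (ω ∈ E ↔ ω' ∈ E)

/-- The pattern `(E, A)` occurs at the vertex `(k,k)` of the flat end: the configuration seen from
`(k,k)` belongs to `E`, and a vertex of `A + (k,k)` is joined to the upper side in the strip. -/
def Occurs (E : Set Conf) (A : Set (ℤ × ℤ)) (n : ℕ) (k : ℤ) : Set Conf :=
  {ω | seen k ω ∈ E} ∩ Joined (Strip n) (move k A) (Upper n)

/-- The vertex `(k,k)` is a contact: it is joined to the upper side in the strip. -/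
def Contact (n : ℕ) (k : ℤ) : Set Conf := Occurs Set.univ {(0, 0)} n k

/-- The number of the occurrences of the pattern `(E, A)` at the vertices `(k,k)`, `0 ≤ k < n`. -/
noncomputable def count (E : Set Conf) (A : Set (ℤ × ℤ)) (n : ℕ) (ω : Conf) : ℕ :=
  {k : ℕ | k < n ∧ ω ∈ Occurs E A n k}.ncard

section

open Pool.Agent.U167.SA

theorem adj_eq (G : Set Edge) (ω : Conf) : OpenAdj G ω = H974.Adj ({e | ω e = true} ∩ G) := by
  funext x y
  apply propext
  constructor
  · rintro ⟨e, h1, h2, h3⟩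
    exact ⟨e, ⟨h2, h1⟩, h3⟩
  · rintro ⟨e, ⟨h2, h1⟩, h3⟩
    exact ⟨e, h1, h2, h3⟩

theorem strip_eq (n : ℕ) : Strip n = StK n 0 := by
  unfold Strip StK
  ext e
  simp only [Set.mem_ofPred_eq, mul_zero, sub_zero]
  rfl

theorem upper_eq (n : ℕ) : Upper n = TpK n 0 := by
  unfold Upper TpK
  ext e
  simp only [Set.mem_ofPred_eq, mul_zero, sub_zero]
  rfl

open Classical in
theorem occurs_eq {E : Set Conf} {m : ℕ} {W : Finset Edge → Prop}
    (hW : ∀ ω : Conf, ω ∈ E ↔ W ((H974.boxE m).filter (fun e => ω e = true)))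
    (A : Set (ℤ × ℤ)) (n : ℕ) (k : ℤ) : Occurs E A n k = XE m W A n k := by
  ext ω
  unfold Occurs XE Joined Pool.Agent.U167.SA.LE Cj
  rw [← strip_eq, ← upper_eq]
  simp only [Set.mem_inter_iff, Set.mem_ofPred_eq, hW (seen k ω), adj_eq, H974.Reach]
  rfl

open Classical in
theorem count_eq {E : Set Conf} {m : ℕ} {W : Finset Edge → Prop}
    (hW : ∀ ω : Conf, ω ∈ E ↔ W ((H974.boxE m).filter (fun e => ω e = true)))
    (A : Set (ℤ × ℤ)) (n : ℕ) (ω : Conf) : (count E A n ω : ℝ) = NN m W A n ω := by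
  unfold count NN
  simp only [occurs_eq hW]
  have h : {k : ℕ | k < n ∧ ω ∈ XE m W A n (k:ℤ)} =
      (((Finset.range n).filter (fun k : ℕ => ω ∈ XE m W A n (k:ℤ)) : Finset ℕ) : Set ℕ) := by
    ext k
    simp only [Set.mem_ofPred_eq, Finset.coe_filter, Finset.mem_range]
  rw [h, Set.ncard_coe_finset]

open Classical in
theorem arm_eq {E : Set Conf} {m : ℕ} {W : Finset Edge → Prop}
    (hW : ∀ ω : Conf, ω ∈ E ↔ W ((H974.boxE m).filter (fun e => ω e = true)))
    (A : Set (ℤ × ℤ)) (n : ℤ) :
    perc.real (E ∩ Joined HalfPlane A (Column n)) = PE m W D0 A n := by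
  unfold PE
  show percE.real _ = percE.real _
  congr 1
  ext ω
  simp only [Set.mem_inter_iff, Joined, Set.mem_ofPred_eq, hW ω, adj_eq, H974.Reach, Column]
  rfl

theorem arm0_eq (n : ℤ) : perc.real (Joined HalfPlane {(0, 0)} (Column n)) =
    PE 0 (fun _ => True) D0 {((0:ℤ), (0:ℤ))} n := by
  have h := arm_eq (E := Set.univ) (m := 0) (W := fun _ => True) (fun ω => by simp) {(0, 0)} n
  rw [Set.univ_inter] at h
  exact h

end

open Pool.Agent.U167.SA in
/-- **Local patterns at the contacts.** There are constants `κ E A` (`E` local event, `A` finite set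
of vertices) such that (1) `κ E A` is the limit of the ratio of the half-plane arm probabilities
with and without the pattern, it is positive as soon as the pattern is possible; (2) the number of
occurrences in every part of the flat end (every weight `|a k| ≤ 1`) is `κ E A` times the number of
contacts, in `L²`, at the scale `(2 n + 1)^(2/3)`; (3) first and mixed second moments; (4) joint
limit law of the numbers of occurrences: they converge to `κ X`, with one random variable `X`,
of density `exp (- x ^ 3) / Γ(4/3)`. -/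
theorem result :
    ∃ κ : Set Conf → Set (ℤ × ℤ) → ℝ,
      (∀ (E : Set Conf) (A : Set (ℤ × ℤ)), IsLocal E → A.Finite →
        0 ≤ κ E A ∧
        Tendsto (fun n : ℕ => perc.real (E ∩ Joined HalfPlane A (Column n)) /
          perc.real (Joined HalfPlane {(0, 0)} (Column n))) atTop (𝓝 (κ E A)) ∧
        (0 < κ E A ∨ ∀ᶠ n : ℕ in atTop, perc.real (E ∩ Joined HalfPlane A (Column n)) = 0) ∧
        (∀ ε : ℝ, 0 < ε → ∃ N : ℕ, ∀ n : ℕ, N ≤ n → ∀ a : ℕ → ℝ, (∀ k, |a k| ≤ 1) →
          ∫ ω, (∑ k ∈ Finset.range n, a k * ((Occurs E A n k).indicator (fun _ => (1:ℝ)) ω -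
            κ E A * (Contact n k).indicator (fun _ => (1:ℝ)) ω)) ^ 2 ∂perc ≤
          ε * (2 * (n:ℝ) + 1) ^ ((4:ℝ)/3)) ∧
        Tendsto (fun n : ℕ => (∫ ω, (count E A n ω : ℝ) ∂perc) / (2 * (n:ℝ) + 1) ^ ((2:ℝ)/3)) atTop
          (𝓝 (κ E A * (Real.Gamma (2/3) / Real.Gamma (1/3))))) ∧
      (∀ (E E' : Set Conf) (A A' : Set (ℤ × ℤ)), IsLocal E → IsLocal E' → A.Finite → A'.Finite →
        Tendsto (fun n : ℕ => (∫ ω, (count E A n ω : ℝ) * count E' A' n ω ∂perc) /
          ((2 * (n:ℝ) + 1) ^ ((2:ℝ)/3)) ^ 2) atTop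
          (𝓝 (κ E A * κ E' A' * (1 / Real.Gamma (1/3))))) ∧
      (∀ (p : ℕ) (E : Fin (p + 1) → Set Conf) (A : Fin (p + 1) → Set (ℤ × ℤ))
        (t : Fin (p + 1) → ℝ), (∀ i, IsLocal (E i)) → (∀ i, (A i).Finite) →
        (∀ i, 0 < κ (E i) (A i)) → (∀ i, 0 ≤ t i) →
        Tendsto (fun n : ℕ => perc.real {ω | ∀ i, (count (E i) (A i) n ω : ℝ) ≤
          t i * (2 * (n:ℝ) + 1) ^ ((2:ℝ)/3)}) atTop
          (𝓝 ((∫ x in (0:ℝ)..(⨅ i, t i / κ (E i) (A i)), Real.exp (-x ^ 3)) /
            Real.Gamma (4/3)))) := by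
  obtain ⟨c0, hc0, hT0⟩ := a_c0
  have hex : ∀ (E : Set Conf) (A : Set (ℤ × ℤ)), ∃ κ : ℝ, IsLocal E → A.Finite → 0 ≤ κ ∧
      Tendsto (fun n : ℕ => perc.real (E ∩ Joined HalfPlane A (Column n)) * (n:ℝ)^((1:ℝ)/3)) atTop
        (𝓝 (κ * c0)) ∧
      (0 < κ ∨ ∀ᶠ n : ℕ in atTop, perc.real (E ∩ Joined HalfPlane A (Column n)) = 0) := by
    intro E A
    by_cases hE : IsLocal E
    · by_cases hA : A.Finite
      · obtain ⟨m, W, hW⟩ := local_box hE
        obtain ⟨c, hc, hT, hp⟩ := a_F3D m W (finite_inB hA)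
        simp only [arm_eq hW]
        refine ⟨c / c0, fun _ _ => ⟨div_nonneg hc hc0.le, ?_, ?_⟩⟩
        · rw [div_mul_cancel₀ c hc0.ne']
          exact hT
        · rcases dich (fun n : ℕ => PE_nonneg m W D0 A n) hp with h | h
          · exact Or.inl (div_pos h hc0)
          · exact Or.inr h
      · exact ⟨0, fun _ h => absurd h hA⟩
    · exact ⟨0, fun h _ => absurd h hE⟩
  choose κ hκ using hex
  have rep : ∀ (E : Set Conf) (A : Set (ℤ × ℤ)), IsLocal E → A.Finite →
      ∀ (m : ℕ) (W : Finset Edge → Prop), (∀ n : ℕ, perc.real (E ∩ Joined HalfPlane A (Column n)) =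
        PE m W D0 A n) →
      Tendsto (fun n : ℕ => PE m W D0 A n * (n:ℝ)^((1:ℝ)/3)) atTop (𝓝 (κ E A * c0)) := by
    intro E A hE hA m W h
    have h2 := (hκ E A hE hA).2.1
    simp only [h] at h2
    exact h2
  refine ⟨κ, ?_, ?_, ?_⟩
  · intro E A hE hA
    obtain ⟨k1, k2, k3⟩ := hκ E A hE hA
    obtain ⟨m, W, hW⟩ := local_box hE
    have hT := rep E A hE hA m W (fun n => arm_eq hW A n)
    have hdiv : κ E A * c0 / c0 = κ E A := mul_div_cancel_right₀ _ hc0.ne'
    obtain ⟨h4, -⟩ := lw2_of t_LW2W hc0 hT0 m W (finite_inB hA) hT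
    obtain ⟨h5, -⟩ := mom_of hc0 hT0 m m W W (finite_inB hA) (finite_inB hA) hT hT
    rw [hdiv] at h4 h5
    refine ⟨k1, ?_, k3, ?_, ?_⟩
    · have h6 := hT.div hT0 hc0.ne'
      rw [hdiv] at h6
      refine h6.congr' ?_
      filter_upwards [eventually_ge_atTop 1] with n hn
      have hn0 : (0:ℝ) < n := by exact_mod_cast hn
      have h7 : (n:ℝ)^((1:ℝ)/3) ≠ 0 := (Real.rpow_pos_of_pos hn0 _).ne'
      rw [arm_eq hW, arm0_eq]
      exact mul_div_mul_right _ _ h7
    · intro ε hε
      obtain ⟨N, hN⟩ := h4 ε hε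
      refine ⟨N, fun n hn a ha => ?_⟩
      have h8 := hN n hn a ha
      have e1 : ∀ k : ℕ, Occurs E A n k = XE m W A n k := fun k => occurs_eq hW A n k
      have e2 : ∀ k : ℕ, Contact n k = X0 n k := fun k =>
        occurs_eq (E := Set.univ) (m := 0) (W := fun _ => True) (fun ω => by simp) {(0, 0)} n k
      simp only [e1, e2]
      exact h8
    · simp only [count_eq hW]
      exact h5
  · intro E E' A A' hE hE' hA hA'
    obtain ⟨m, W, hW⟩ := local_box hE
    obtain ⟨m', W', hW'⟩ := local_box hE'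
    have hT := rep E A hE hA m W (fun n => arm_eq hW A n)
    have hT' := rep E' A' hE' hA' m' W' (fun n => arm_eq hW' A' n)
    have h6 := (mom_of hc0 hT0 m m' W W' (finite_inB hA) (finite_inB hA') hT hT').2
    rw [mul_div_cancel_right₀ _ hc0.ne', mul_div_cancel_right₀ _ hc0.ne'] at h6
    simp only [count_eq hW, count_eq hW']
    exact h6
  · intro p E A t hE hA hpos ht
    choose m W hW using fun i => local_box (hE i)
    have hT := fun i => rep (E i) (A i) (hE i) (hA i) (m i) (W i) (fun n => arm_eq (hW i) (A i) n)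
    have h7 := law_of t_LW2W hc0 hT0 (Fin (p + 1)) m W A (fun i => κ (E i) (A i) * c0)
      (fun i => finite_inB (hA i)) hT (fun i => mul_pos (hpos i) hc0) t ht
    have e1 : ∀ i, κ (E i) (A i) * c0 / c0 = κ (E i) (A i) := fun i =>
      mul_div_cancel_right₀ _ hc0.ne'
    simp only [e1] at h7
    have e2 : ∀ (n : ℕ), {ω : Conf | ∀ i, (count (E i) (A i) n ω : ℝ) ≤
        t i * (2 * (n:ℝ) + 1) ^ ((2:ℝ)/3)} = {ω | ∀ i, NN (m i) (W i) (A i) n ω ≤
        t i * (2 * (n:ℝ) + 1) ^ ((2:ℝ)/3)} := by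
      intro n
      ext ω
      simp only [Set.mem_ofPred_eq]
      exact forall_congr' fun i => by rw [count_eq (hW i)]
    simp only [e2]
    exact h7

end Pool.Agent.Results.MP_fe58d8_pr.ContactPatterns
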