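import Pool.Agent.U154.NI.Inc2

/-!
Critical bond percolation on the square lattice: the number of nested layers around the origin, as a
process in the logarithm of the distance, converges to Brownian motion (convergence of the
finite-dimensional distributions), with the centering and the variance predicted for the full
scaling limit CLE₆.

`changes m ω` is the minimal number of colour changes of a path from the origin to the distance `m`,
i.e. the number of nested alternating (open / dual-open) layers around the origin.  The numbers of
layers up to the distances `⌊n ^ s⌋`, for all times `s` in the finite set `I`, are taken in the same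
configuration `ω` of the whole lattice.

Definitions (in `Pool.Agent.H974R2.Model`, `Pool.Agent.H974R2.Infinite`,
`Pool.Agent.H863R2.NL.Defs`): `sqLattice`, `bondLaw`, `hlf` (`= 1/2`), `openGraph`; `Pt`, `Corner`,
`Free`, `Change`, `ReachIn`, `norm2`, `changes`.  `IsPreBrownianReal B P` (Mathlib) says that `B` is
a process with the finite-dimensional distributions of Brownian motion.

The central limit theorem for one distance is in `Pool.Agent.H863R2`, the superadditivity and the
link estimates in `Pool.Agent.W819.EN` (starting repository); the proofs of this file (asymptotic
independence of the increments, joint laws) are in `Pool.Agent.U154.NI` (helper154).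
-/

set_option autoImplicit false

namespace Pool.Agent.Results.MP_fe58d8_pr.NestingBrownianLimit

open MeasureTheory ProbabilityTheory H974 Pool.Agent.H863R2.NL Filter
open scoped Real Topology NNReal

theorem result {Ω : Type*} [MeasurableSpace Ω] {P : Measure Ω} [IsProbabilityMeasure P]
    {B : ℝ≥0 → Ω → ℝ} (hB : IsPreBrownianReal B P) (I : Finset ℝ≥0) :
    TendstoInDistribution (fun (n : ℕ) (ω : sqLattice.edgeSet → Bool) (s : I) =>
        ((changes ⌊(n : ℝ) ^ ((s : ℝ≥0) : ℝ)⌋₊ ω : ℝ) -
          (s : ℝ≥0) * (Real.log n / (2 * √3 * π))) /
        √((2 / (3 * √3 * π) - 1 / (2 * π ^ 2)) * Real.log n))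
      atTop (fun ω (s : I) => B s ω) (fun _ => bondLaw hlf) P := by
  have e : ∀ n : ℕ, cN * Real.log n = Real.log n / (2 * √3 * π) := by
    intro n
    unfold cN
    ring
  have h := Pool.Agent.U154.NI.fdd_bond hB I
  simp only [e] at h
  exact h

end Pool.Agent.Results.MP_fe58d8_pr.NestingBrownianLimit
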